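import Pool.Agent.W96.CL.Stm
set_option autoImplicit false

open Polynomial Filter Topology MeasureTheory

namespace W96CL

theorem cl_sq (hc : S_clopen) (ht : S_turn) (hn : S_near) (ho : S_ord) : S_sq := by
  intro n t lam h1 hF θ hθ
  obtain ⟨Q, hQ1, hQ2, hQ3⟩ := hc n t lam h1 hF
  have hz : ∀ θ : ℝ, ∃ z0 : ℝ, θ ∈ Set.Ioo 0 (Real.pi / 3) → Zer n θ (t θ) (Q θ) z0 := by
    intro θ
    by_cases h : θ ∈ Set.Ioo 0 (Real.pi / 3)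
    · have h2 := hQ1 θ ⟨h.1, h.2.le⟩
      obtain ⟨z0, hz0⟩ := ht n θ (t θ) (Q θ) h1 h.1 h.2 (hF.rel θ h.1 h.2.le) h2.1 h2.2
      exact ⟨z0, fun _ => hz0⟩
    · exact ⟨0, fun h' => absurd h' h⟩
  choose z hz using hz
  have hP : ∀ θ ∈ Set.Ioc 0 (Real.pi / 3), P1 n θ (t θ) (Q θ) := fun θ h => (hQ1 θ h).1
  have hO := ho n t Q lam z h1 hF hP hQ2 (fun θ h => hz θ h)
    (hn n t Q lam z h1 hF hP hQ2 hQ3 (fun θ h => hz θ h)) θ hθ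
  have hZ := hz θ hθ
  refine ⟨Q θ, z θ, h1, hθ.1, hθ.2, hZ.z0pos, hF.rel θ hθ.1 hθ.2.le, hP θ ⟨hθ.1, hθ.2.le⟩,
    hZ.tfac, ?_⟩
  obtain ⟨Q1, hQe, -, hr⟩ := hZ.Qfac
  refine ⟨Q1, hQe, fun w hw => ?_⟩
  obtain ⟨a, ha, -, -, rfl⟩ := hr w hw
  refine ⟨a, ha, ?_, rfl⟩
  by_contra hcon
  have h3 := hO a (not_lt.1 hcon)
  have h4 : Q1.eval a = 0 := by
    have h5 : aeval ((algebraMap ℝ ℂ) a) Q1 = (algebraMap ℝ ℂ) (Q1.eval a) :=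
      Polynomial.aeval_algebraMap_apply_eq_algebraMap_eval a Q1
    have h6 : (algebraMap ℝ ℂ) (Q1.eval a) = 0 := by rw [← h5]; exact hw
    simpa using h6
  rw [hQe, Polynomial.eval_mul, h4, mul_zero] at h3
  exact lt_irrefl _ h3

end W96CL
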